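import Mathlib
import Pool.Agent.Helper77_PA.Ident
import Pool.Agent.Helper41_PA.Final
import Pool.Agent.Helper35_PA.OneStep

/-!
# The marginal MLE of the hierarchical preferential attachment model is not consistent

There are two identifiable parameters of the model with two communities such that no sequence of
estimators, in particular no choice of maximisers of the marginal likelihood, converges in
probability (up to relabelling and scaling) to the true parameter under both.
-/

namespace Pool.Agent.Results.MP_7e57c2_pr.NoConsistentEstimator

open Pool.Agent.Helper77_PA Pool.Agent.Helper41_PA Pool.Agent.Helper35_PA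

theorem result : ∃ q₁ q₂ : Param 2, Identifiable q₁ ∧ Identifiable q₂ ∧
    ∀ T : Estimator 2, ¬ (ConsistentAt T q₁ ∧ ConsistentAt T q₂) := by
  refine ⟨q1, q2, identifiable_of_bal oneStep bal1 ?_, identifiable_of_bal oneStep bal2 ?_,
    no_consistent oneStep⟩
  · intro i
    fin_cases i <;> simp [q1]
  · intro i
    fin_cases i <;> simp [q2]

end Pool.Agent.Results.MP_7e57c2_pr.NoConsistentEstimator
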